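import Pool.Agent.H773.IE.SH

/-!
# S_form, S_trc, S_comm2 (subtask by helper284)
-/

set_option autoImplicit false

open MeasureTheory Set Filter Topology Matrix

namespace Pool.Agent.H284.IE

open Pool.Agent.H773.IE

theorem t_form : S_form := by
  intro d K hK
  have : CompactSpace K := isCompact_iff_compactSpace.1 hK
  let _ : MeasurableSpace K := borel K
  have : BorelSpace K := ⟨rfl⟩
  obtain ⟨μ, hμ⟩ : ∃ μ : Measure K, μ.IsHaarMeasure := ⟨Measure.haar, inferInstance⟩
  obtain ⟨f, hf⟩ : ∃ f : K → Matrix (Fin d) (Fin d) ℝ,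
      f = fun k => ((k⁻¹ : K).1.1)ᵀ * (k⁻¹ : K).1.1 := ⟨_, rfl⟩
  have hic : Continuous fun k : K => (k⁻¹ : K).1.1 :=
    continuous_subtype_val.comp (continuous_subtype_val.comp continuous_inv)
  have hfc : Continuous f := by
    rw [hf]
    exact hic.matrix_transpose.matrix_mul hic
  have hfij : ∀ i j, Continuous fun k => f k i j := fun i j => hfc.matrix_elem i j
  have hint : ∀ i j, Integrable (fun k => f k i j) μ := fun i j =>
    (hfij i j).integrable_of_hasCompactSupport (HasCompactSupport.of_compactSpace _)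
  obtain ⟨P, hP⟩ : ∃ P : Matrix (Fin d) (Fin d) ℝ, P = Matrix.of fun i j => ∫ k, f k i j ∂μ :=
    ⟨_, rfl⟩
  have hPij : ∀ i j, P i j = ∫ k, f k i j ∂μ := fun i j => by rw [hP]; rfl
  have hsym : ∀ k i j, f k i j = f k j i := by
    intro k i j
    have h1 : (f k)ᵀ = f k := by
      rw [hf]
      simp only [transpose_mul, transpose_transpose]
    exact (congrFun (congrFun h1 i) j).symm
  refine ⟨P, ?_, ?_⟩
  · refine PosDef.of_dotProduct_mulVec_pos ?_ ?_
    · refine IsHermitian.ext fun i j => ?_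
      rw [star_trivial, hPij, hPij]
      exact integral_congr_ae (Eventually.of_forall fun k => hsym k j i)
    · intro x hx
      have h1 : star x ⬝ᵥ (P *ᵥ x) = ∫ k, ((k⁻¹ : K).1.1 *ᵥ x) ⬝ᵥ ((k⁻¹ : K).1.1 *ᵥ x) ∂μ := by
        have h2 : ∀ k : K, ((k⁻¹ : K).1.1 *ᵥ x) ⬝ᵥ ((k⁻¹ : K).1.1 *ᵥ x) =
            ∑ i, ∑ j, x i * (f k i j * x j) := by
          intro k
          have h3 : ((k⁻¹ : K).1.1 *ᵥ x) ⬝ᵥ ((k⁻¹ : K).1.1 *ᵥ x) = x ⬝ᵥ (f k *ᵥ x) := by
            rw [hf]
            simp only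
            rw [← mulVec_mulVec, dotProduct_mulVec x, vecMul_transpose]
          rw [h3]
          unfold dotProduct mulVec dotProduct
          refine Finset.sum_congr rfl fun i _ => ?_
          rw [Finset.mul_sum]
        rw [integral_congr_ae (Eventually.of_forall h2)]
        rw [integral_finsetSum _ fun i _ => integrable_finsetSum _ fun j _ =>
          ((hint i j).mul_const _).const_mul _]
        unfold dotProduct mulVec dotProduct
        refine Finset.sum_congr rfl fun i _ => ?_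
        rw [integral_finsetSum _ fun j _ => ((hint i j).mul_const _).const_mul _, Finset.mul_sum]
        refine Finset.sum_congr rfl fun j _ => ?_
        rw [integral_const_mul, integral_mul_const, ← hPij]
        rfl
      rw [h1]
      have hc : Continuous fun k : K => ((k⁻¹ : K).1.1 *ᵥ x) ⬝ᵥ ((k⁻¹ : K).1.1 *ᵥ x) := by
        have h4 : Continuous fun k : K => (k⁻¹ : K).1.1 *ᵥ x := hic.matrix_mulVec continuous_const
        exact h4.dotProduct h4
      refine hc.integral_pos_of_hasCompactSupport_nonneg_nonzero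
        (HasCompactSupport.of_compactSpace _) (fun k => ?_) (x := 1) ?_
      · exact Finset.sum_nonneg fun i _ => mul_self_nonneg _
      · have h5 : (((1 : K)⁻¹ : K).1.1 : Matrix (Fin d) (Fin d) ℝ) = 1 := by
          rw [inv_one]
          rfl
        rw [h5, one_mulVec]
        intro h6
        exact hx (dotProduct_self_eq_zero.1 h6)
  · intro h hh
    obtain ⟨h', hh'⟩ : ∃ h' : K, h' = ⟨h, hh⟩ := ⟨_, rfl⟩
    have hval : h.1 = h'.1.1 := by rw [hh']
    ext i j
    have h1 : ∀ k : K, (h.1ᵀ * f k * h.1) i j = f (h'⁻¹ * k) i j := by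
      intro k
      have h2 : h.1ᵀ * f k * h.1 = f (h'⁻¹ * k) := by
        rw [hf, hval]
        simp only [_root_.mul_inv_rev, inv_inv]
        have h3 : ((k⁻¹ * h' : K).1.1 : Matrix (Fin d) (Fin d) ℝ) = (k⁻¹ : K).1.1 * h'.1.1 := rfl
        rw [h3, transpose_mul]
        simp only [Matrix.mul_assoc]
      rw [h2]
    have h4 : (h.1ᵀ * P * h.1) i j = ∫ k, (h.1ᵀ * f k * h.1) i j ∂μ := by
      have h5 : ∀ k : K, (h.1ᵀ * f k * h.1) i j =
          ∑ b, (∑ a, h.1ᵀ i a * f k a b) * h.1 b j := by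
        intro k
        rw [mul_apply]
        refine Finset.sum_congr rfl fun b _ => ?_
        rw [mul_apply]
      rw [integral_congr_ae (Eventually.of_forall h5)]
      rw [integral_finsetSum _ fun b _ => (integrable_finsetSum _ fun a _ =>
          (hint a b).const_mul _).mul_const _, mul_apply]
      refine Finset.sum_congr rfl fun b _ => ?_
      rw [integral_mul_const, integral_finsetSum _ fun a _ => (hint a b).const_mul _, mul_apply]
      congr 1
      refine Finset.sum_congr rfl fun a _ => ?_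
      rw [integral_const_mul, hPij]
    rw [h4, integral_congr_ae (Eventually.of_forall h1), hPij]
    exact integral_mul_left_eq_self (fun k => f k i j) h'⁻¹

theorem t_trc (hform : S_form) : S_trc := by
  intro d K hK k hk
  obtain ⟨P, hP, hinv⟩ := hform d K hK
  have hdet : IsUnit P.det := (Matrix.isUnit_iff_isUnit_det P).1 hP.isUnit
  have h1 := hinv k hk
  have h2 : (k : Matrix (Fin d) (Fin d) ℝ) * ((k⁻¹ : SLR d) : Matrix (Fin d) (Fin d) ℝ) = 1 := by
    have h3 : (k * k⁻¹ : SLR d) = 1 := mul_inv_cancel k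
    exact congrArg Subtype.val h3
  have h3 : ((k⁻¹ : SLR d) : Matrix (Fin d) (Fin d) ℝ) =
      P⁻¹ * ((k : Matrix (Fin d) (Fin d) ℝ)ᵀ * P) := by
    have h4 : (k : Matrix (Fin d) (Fin d) ℝ)ᵀ * P = P * ((k⁻¹ : SLR d) : Matrix _ _ ℝ) := by
      have h5 : (k : Matrix (Fin d) (Fin d) ℝ)ᵀ * P =
          (k : Matrix (Fin d) (Fin d) ℝ)ᵀ * P * ((k : Matrix (Fin d) (Fin d) ℝ) *
            ((k⁻¹ : SLR d) : Matrix (Fin d) (Fin d) ℝ)) := by
        rw [h2, Matrix.mul_one]
      rw [h5, ← Matrix.mul_assoc]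
      rw [show (k : Matrix (Fin d) (Fin d) ℝ)ᵀ * P * (k : Matrix (Fin d) (Fin d) ℝ) = P from h1]
    rw [h4, ← Matrix.mul_assoc, Matrix.nonsing_inv_mul P hdet, Matrix.one_mul]
  rw [h3, Matrix.trace_mul_comm, Matrix.mul_assoc, Matrix.mul_nonsing_inv P hdet, Matrix.mul_one,
    Matrix.trace_transpose]

/-- the entries of the elements of a compact subgroup of `SL(2)` -/
lemma entries2 {P k : Matrix (Fin 2) (Fin 2) ℝ} (hP : P.PosDef) (hk : k.det = 1)
    (h : kᵀ * P * k = P) : k 0 1 * P 0 0 = -(k 1 0 * P 1 1) ∧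
      (k 0 0 - k 1 1) * P 0 0 = -(2 * P 0 1 * k 1 0) := by
  have hs : P 1 0 = P 0 1 := by
    have := hP.isHermitian.apply 0 1
    simpa using this
  rw [det_fin_two] at hk
  have e : ∀ i j, (kᵀ * P * k) i j = (k 0 i * P 0 0 + k 1 i * P 1 0) * k 0 j +
      (k 0 i * P 0 1 + k 1 i * P 1 1) * k 1 j := by
    intro i j
    rw [mul_apply, Fin.sum_univ_two, mul_apply, mul_apply, Fin.sum_univ_two, Fin.sum_univ_two]
    simp only [transpose_apply]
  have h00 := congrFun (congrFun h 0) 0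
  have h01 := congrFun (congrFun h 0) 1
  rw [e, hs] at h00 h01
  constructor
  · linear_combination (k 0 0) * h01 - (k 0 1) * h00 -
      (k 0 0 * P 0 1 + k 1 0 * P 1 1) * hk
  · linear_combination (k 1 1) * h00 - (k 1 0) * h01 -
      (k 0 0 * P 0 0 + k 1 0 * P 0 1) * hk

theorem t_comm2 (hform : S_form) : S_comm2 := by
  intro K hK k hk l hl
  obtain ⟨P, hP, hinv⟩ := hform 2 K hK
  obtain ⟨a1, a2⟩ := entries2 hP k.2 (hinv k hk)
  obtain ⟨b1, b2⟩ := entries2 hP l.2 (hinv l hl)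
  have hp : P 0 0 ≠ 0 := hP.diag_pos.ne'
  have e1 : k.1 0 1 * l.1 1 0 = l.1 0 1 * k.1 1 0 := by
    refine mul_right_cancel₀ hp ?_
    linear_combination (l.1 1 0) * a1 - (k.1 1 0) * b1
  have e2 : l.1 0 1 * (k.1 0 0 - k.1 1 1) = k.1 0 1 * (l.1 0 0 - l.1 1 1) := by
    refine mul_right_cancel₀ (mul_ne_zero hp hp) ?_
    linear_combination (l.1 0 1 * P 0 0) * a2 - (2 * P 0 1 * k.1 1 0) * b1 -
      (k.1 0 1 * P 0 0) * b2 + (2 * P 0 1 * l.1 1 0) * a1
  have e3 : k.1 1 0 * (l.1 0 0 - l.1 1 1) = l.1 1 0 * (k.1 0 0 - k.1 1 1) := by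
    refine mul_right_cancel₀ hp ?_
    linear_combination (k.1 1 0) * b2 - (l.1 1 0) * a2
  apply Subtype.ext
  show k.1 * l.1 = l.1 * k.1
  ext i j
  fin_cases i <;> fin_cases j
  · show (k.1 * l.1) 0 0 = (l.1 * k.1) 0 0
    rw [mul_apply, mul_apply, Fin.sum_univ_two, Fin.sum_univ_two]
    linear_combination e1
  · show (k.1 * l.1) 0 1 = (l.1 * k.1) 0 1
    rw [mul_apply, mul_apply, Fin.sum_univ_two, Fin.sum_univ_two]
    linear_combination e2
  · show (k.1 * l.1) 1 0 = (l.1 * k.1) 1 0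
    rw [mul_apply, mul_apply, Fin.sum_univ_two, Fin.sum_univ_two]
    linear_combination e3
  · show (k.1 * l.1) 1 1 = (l.1 * k.1) 1 1
    rw [mul_apply, mul_apply, Fin.sum_univ_two, Fin.sum_univ_two]
    linear_combination -e1

end Pool.Agent.H284.IE
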