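import Pool.Agent.H773.IE.SR

/-!
# S_sys and S_geo0 (subtask by helper284)

The lemmas on interval exchange transformations are copied from the library project IG
(modules `Q101.IgInit`, `Q101.IgEquiv`), with the definitions of `Pool.Agent.H773.IE.Defs`.
-/

set_option autoImplicit false

open MeasureTheory Set Filter Topology

namespace Pool.Agent.H284.IE

open Pool.Agent.H773.IE

/-- partial sums -/
noncomputable def ini_ps {d : ℕ} (lam : Fin d → ℝ) (k : ℕ) : ℝ :=
  ∑ i ∈ Finset.univ.filter (fun i : Fin d => i.val < k), lam i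

theorem ini_ps_zero {d : ℕ} (lam : Fin d → ℝ) : ini_ps lam 0 = 0 := by
  simp [ini_ps]

theorem ini_ps_top {d : ℕ} (lam : Fin d → ℝ) : ini_ps lam d = ∑ i, lam i := by
  simp [ini_ps]

theorem ini_ps_left {d : ℕ} (lam : Fin d → ℝ) (j : Fin d) :
    ini_ps lam j.val = left lam j := rfl

theorem ini_ps_succ {d : ℕ} (lam : Fin d → ℝ) (j : Fin d) :
    ini_ps lam (j.val + 1) = left lam j + lam j := by
  have h : Finset.univ.filter (fun i : Fin d => i.val < j.val + 1)
      = insert j (Finset.univ.filter (fun i : Fin d => i < j)) := by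
    ext i
    simp only [Finset.mem_filter, Finset.mem_univ, true_and, Finset.mem_insert, Fin.lt_def,
      Fin.ext_iff]
    omega
  rw [ini_ps, h, Finset.sum_insert (by simp), left, add_comm]

theorem ini_ps_mono {d : ℕ} (lam : Fin d → ℝ) (hp : ∀ j, 0 < lam j) :
    Monotone (ini_ps lam) := by
  intro a b hab
  apply Finset.sum_le_sum_of_subset_of_nonneg
  · intro i hi
    simp only [Finset.mem_filter, Finset.mem_univ, true_and] at hi ⊢
    omega
  · intro i _ _; exact (hp i).le

theorem ini_piece {d : ℕ} (lam : Fin d → ℝ) (j : Fin d) :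
    piece lam j = Ico (ini_ps lam j.val) (ini_ps lam (j.val + 1)) := by
  rw [ini_ps_succ, ini_ps_left]; rfl

theorem ini_cover {d : ℕ} (lam : Fin d → ℝ) (hp : ∀ j, 0 < lam j) (hs : ∑ j, lam j = 1) :
    Ico (0 : ℝ) 1 = ⋃ i, piece lam i := by
  have h0 := ini_ps_zero lam
  have h1 : ini_ps lam d = 1 := by rw [ini_ps_top, hs]
  apply Subset.antisymm
  · intro x hx
    have h2 : x ∈ Ico (ini_ps lam 0) (ini_ps lam d) := by rw [h0, h1]; exact hx
    have h3 := Ico_subset_biUnion_Ico d (ini_ps lam) h2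
    simp only [mem_iUnion, Finset.mem_range, exists_prop] at h3
    obtain ⟨i, hi, hxi⟩ := h3
    refine mem_iUnion.2 ⟨⟨i, hi⟩, ?_⟩
    rw [ini_piece]; exact hxi
  · intro x hx
    obtain ⟨i, hi⟩ := mem_iUnion.1 hx
    rw [ini_piece] at hi
    have h2 := ini_ps_mono lam hp (Nat.zero_le i.val)
    have h3 := ini_ps_mono lam hp (Nat.succ_le_of_lt i.isLt)
    rw [h0] at h2
    rw [h1] at h3
    exact ⟨h2.trans hi.1, hi.2.trans_le h3⟩

theorem ini_disj {d : ℕ} (lam : Fin d → ℝ) (hp : ∀ j, 0 < lam j) (i j : Fin d) (h : i ≠ j) :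
    Disjoint (piece lam i) (piece lam j) := by
  rw [ini_piece, ini_piece]
  have := (ini_ps_mono lam hp).pairwise_disjoint_on_Ico_succ
  exact this (fun h' => h (Fin.ext h'))

theorem ini_left' {d : ℕ} (lam : Fin d → ℝ) (σ : Equiv.Perm (Fin d)) (j : Fin d) :
    left' lam σ j = left (lam ∘ σ.symm) (σ j) := by
  rw [left', left]
  refine Finset.sum_bij (fun i _ => σ i) ?_ ?_ ?_ ?_
  · intro i hi; simpa using hi
  · intro i _ j _ h; exact σ.injective h
  · intro k hk
    refine ⟨σ.symm k, ?_, by simp⟩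
    simpa using hk
  · intro i _; simp

theorem ini_iet {d : ℕ} (lam : Fin d → ℝ) (σ : Equiv.Perm (Fin d)) (hp : ∀ j, 0 < lam j)
    (j : Fin d) (x : ℝ) (hx : x ∈ piece lam j) :
    iet lam σ x = x + (left' lam σ j - left lam j) := by
  rw [iet, Finset.sum_eq_single j]
  · rw [indicator_of_mem hx]
  · intro b _ hb
    apply indicator_of_notMem
    intro h
    exact (disjoint_left.1 (ini_disj lam hp b j hb)) h hx
  · intro h; exact absurd (Finset.mem_univ j) h

theorem equ_meas {d : ℕ} (lam : Fin d → ℝ) (σ : Equiv.Perm (Fin d)) :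
    Measurable (iet lam σ) := by
  unfold iet
  refine measurable_id.add (Finset.measurable_fun_sum _ fun j _ => ?_)
  exact measurable_const.indicator measurableSet_Ico

theorem equ_maps {d : ℕ} (lam : Fin d → ℝ) (σ : Equiv.Perm (Fin d)) (hp : ∀ j, 0 < lam j)
    (j : Fin d) (x : ℝ) (hx : x ∈ piece lam j) : iet lam σ x ∈ piece (lam ∘ σ.symm) (σ j) := by
  rw [ini_iet lam σ hp j x hx]
  obtain ⟨h1, h2⟩ := hx
  rw [piece, ← ini_left']
  simp only [Function.comp_apply, Equiv.symm_apply_apply]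
  exact ⟨by linarith, by linarith⟩

theorem equ_mp {d : ℕ} (lam : Fin d → ℝ) (σ : Equiv.Perm (Fin d)) (hp : ∀ j, 0 < lam j)
    (hs : ∑ j, lam j = 1) : MeasurePreserving (iet lam σ) leb leb := by
  have hp' : ∀ j, 0 < (lam ∘ σ.symm) j := fun j => hp _
  have hs' : ∑ j, (lam ∘ σ.symm) j = 1 := by
    rw [← hs]; exact Equiv.sum_comp σ.symm lam
  refine ⟨equ_meas lam σ, ?_⟩
  ext A hA
  have hm := equ_meas lam σ
  rw [Measure.map_apply hm hA]
  have key : ∀ (lam' : Fin d → ℝ), (∀ j, 0 < lam' j) → ∑ j, lam' j = 1 → ∀ S : Set ℝ,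
      MeasurableSet S → leb S = ∑ j, volume (S ∩ piece lam' j) := by
    intro lam' hq hs1 S hS
    rw [leb, Measure.restrict_apply hS, ini_cover lam' hq hs1, inter_iUnion, measure_iUnion,
      tsum_fintype]
    · intro i j hij
      exact (ini_disj lam' hq i j hij).mono inter_subset_right inter_subset_right
    · exact fun j => hS.inter measurableSet_Ico
  rw [key lam hp hs _ (hm hA), key _ hp' hs' A hA,
    ← Equiv.sum_comp σ (fun k => volume (A ∩ piece (lam ∘ σ.symm) k))]
  refine Finset.sum_congr rfl fun j _ => ?_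
  have h1 : iet lam σ ⁻¹' A ∩ piece lam j =
      (fun x => x + (left' lam σ j - left lam j)) ⁻¹' (A ∩ piece (lam ∘ σ.symm) (σ j)) := by
    ext x
    constructor
    · rintro ⟨h2, h3⟩
      have h4 := equ_maps lam σ hp j x h3
      rw [mem_preimage] at h2 ⊢
      rw [ini_iet lam σ hp j x h3] at h2 h4
      exact ⟨h2, h4⟩
    · rintro ⟨h2, h3⟩
      have h4 : x ∈ piece lam j := by
        rw [piece, ← ini_left'] at h3
        simp only [Function.comp_apply, Equiv.symm_apply_apply] at h3
        exact ⟨by linarith [h3.1], by linarith [h3.2]⟩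
      refine ⟨?_, h4⟩
      rw [mem_preimage, ini_iet lam σ hp j x h4]
      exact h2
  rw [h1]
  exact measure_preimage_add_right _ _ _


theorem t_sys : S_sys := by
  intro n lam σ hp hs
  exact ⟨fun j => measurableSet_Ico, ini_cover lam hp hs, ini_disj lam hp,
    fun j x hx => ini_iet lam σ hp j x hx, equ_mp lam σ hp hs⟩

theorem t_geo0 : S_geo0 := by
  intro m lam σ hp hs
  have hT : ∀ i, uT ((1, σ) : Sta m) lam i = left lam i := fun i => rfl
  have hB : ∀ i, uB ((1, σ) : Sta m) lam i = left' lam σ i := fun i => rfl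
  refine ⟨hp, ?_, ?_, ?_⟩
  · intro i x hx
    exact ⟨hx, trivial⟩
  · intro i
    rw [hT, hB]
    simp [tr]
  · intro y hy
    rw [ini_cover lam hp hs] at hy
    obtain ⟨i, hi⟩ := mem_iUnion.1 hy
    exact ⟨i, y, hi, 0, Nat.zero_lt_one, rfl⟩

end Pool.Agent.H284.IE
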